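import Pool.Agent.P.MP_4cf0b2_an.HLd

namespace Pool.Agent.Results.MP_4cf0b2_an.FiniteHereditary

open Pool.Agent.P.MP_4cf0b2_an

universe u v

/-- The finite values of Bowen entropy on subsets of an analytic set form an initial interval. -/
theorem result (G : Type u) (X : Type v) [Group G] [DecidableEq G] [MetricSpace X]
    [CompactSpace X] [MulAction G X] [ContinuousConstSMul G X] (F : ℕ → Finset G)
    (hF : Admissible F) (K Y : Set X) (hK : MeasureTheory.AnalyticSet K) (hne : K.Nonempty)
    (hY : Y ⊆ K) (hf : bowenTop F Y ≠ ⊤) :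
    ∀ h ≤ bowenTop F Y, ∃ Z ⊆ K, Z.Nonempty ∧ IsSigmaCompact Z ∧ bowenTop F Z = h :=
  fun _ hh => HL.lower hF hK hne hY hf hh

/-- The case `Y = K`: systems of finite entropy are D-hereditarily lowerable. -/
theorem finiteEntropy (G : Type u) (X : Type v) [Group G] [DecidableEq G] [MetricSpace X]
    [CompactSpace X] [MulAction G X] [ContinuousConstSMul G X] (F : ℕ → Finset G)
    (hF : Admissible F) (hX : hTop X F ≠ ⊤) : DHereditarilyLowerable X F :=
  fun K hne hK h hh => (result G X F hF K K hK hne subset_rfl (ne_top_of_le_ne_top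
    (HL.top_ne_top hF hX) (bowenTop_mono (Set.subset_univ K))) h hh).imp fun _ a => ⟨a.1, a.2.2.2⟩

end Pool.Agent.Results.MP_4cf0b2_an.FiniteHereditary
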