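import Pool.Agent.P.MP_4cf0b2_an.Counter
import Pool.Agent.P.MP_4cf0b2_an.StageAF
import Pool.Agent.P.MP_4cf0b2_an.PartBF

namespace Pool.Agent.Results.MP_4cf0b2_an.Full

open Pool.Agent.P.MP_4cf0b2_an

universe u v

theorem result :
    (∀ (G : Type u) (X : Type v) [Group G] [DecidableEq G] [MetricSpace X] [CompactSpace X]
      [Nonempty X] [MulAction G X] [ContinuousConstSMul G X] (F : ℕ → Finset G),
      Admissible F → DLowerable X F ∧ PLowerable X F) ∧
    ∃ (X : Type) (_ : MetricSpace X) (_ : CompactSpace X)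
      (_ : MulAction (Multiplicative ℤ) X) (_ : ContinuousConstSMul (Multiplicative ℤ) X)
      (F : ℕ → Finset (Multiplicative ℤ)), Admissible F ∧ ¬ DHereditarilyLowerable X F :=
  ⟨fun _ _ _ _ _ _ _ _ _ _ hF => ⟨dLowerable_all hF, pLowerable_all hF⟩, main⟩

end Pool.Agent.Results.MP_4cf0b2_an.Full
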